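import Pool.Agent.Lib.MP_18867f_lc.Forest
import Pool.Agent.Lib.MP_18867f_lc.Poly

/-!
# Deciding whether a 2T-graph has a good ordering is in P
-/

namespace Pool.Agent.Results.MP_18867f_lc.GoodOrderingInP

/-- A graph, possibly with parallel edges, without loops: the vertices are the elements of `Fin n`,
the edges are the elements of `Fin m`, and the two ends of the edge `e` are `fst e` and `snd e`. -/
structure MGraph where
  /-- the number of vertices -/
  n : ℕ
  /-- the number of edges -/
  m : ℕ
  /-- one end of an edge -/
  fst : Fin m → Fin n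
  /-- the other end of an edge -/
  snd : Fin m → Fin n
  ends_ne : ∀ e, fst e ≠ snd e

namespace MGraph

variable (G : MGraph)

/-- The adjacency relation of the spanning subgraph with edge set `F`. -/
def span (F : Finset (Fin G.m)) : SimpleGraph (Fin G.n) where
  Adj u v := ∃ e ∈ F, (G.fst e = u ∧ G.snd e = v) ∨ (G.fst e = v ∧ G.snd e = u)
  symm := ⟨by
    rintro u v ⟨e, he, h⟩
    exact ⟨e, he, h.symm⟩⟩
  loopless := ⟨by
    rintro u ⟨e, _, h⟩
    rcases h with h | h <;> exact G.ends_ne e (h.1.trans h.2.symm)⟩

/-- `F` is the edge set of a spanning tree: the spanning subgraph with edge set `F` is connected and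
`F` has `n - 1` elements. -/
def IsSpanningTree (F : Finset (Fin G.m)) : Prop :=
  (G.span F).Connected ∧ F.card + 1 = G.n

/-- A 2T-graph: the edge set is the union of two disjoint edge sets of spanning trees. -/
def Is2T : Prop :=
  ∃ F₁ F₂ : Finset (Fin G.m), F₁ ∪ F₂ = Finset.univ ∧ Disjoint F₁ F₂ ∧
    G.IsSpanningTree F₁ ∧ G.IsSpanningTree F₂

/-- The head of the edge `e` in the acyclic orientation given by the ordering in which `u` precedes
`v` if and only if `σ u < σ v`: the later end of `e`. -/
def head (σ : Equiv.Perm (Fin G.n)) (e : Fin G.m) : Fin G.n :=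
  if σ (G.fst e) < σ (G.snd e) then G.snd e else G.fst e

/-- The tail of the edge `e`: the earlier end of `e`. -/
def tail (σ : Equiv.Perm (Fin G.n)) (e : Fin G.m) : Fin G.n :=
  if σ (G.fst e) < σ (G.snd e) then G.fst e else G.snd e

/-- `B` is the arc set of an out-branching with root `r` of the orientation given by `σ`: the root
has in-degree `0` and every other vertex has in-degree `1`. -/
def IsOutBranching (σ : Equiv.Perm (Fin G.n)) (B : Finset (Fin G.m)) (r : Fin G.n) : Prop :=
  ∀ v, (B.filter fun e => G.head σ e = v).card = if v = r then 0 else 1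

/-- `B` is the arc set of an in-branching with root `r` of the orientation given by `σ`: the root
has out-degree `0` and every other vertex has out-degree `1`. -/
def IsInBranching (σ : Equiv.Perm (Fin G.n)) (B : Finset (Fin G.m)) (r : Fin G.n) : Prop :=
  ∀ v, (B.filter fun e => G.tail σ e = v).card = if v = r then 0 else 1

/-- `G` has a good ordering: an ordering whose acyclic orientation contains an out-branching and an
in-branching that share no arc. -/
def HasGoodOrdering : Prop :=
  ∃ (σ : Equiv.Perm (Fin G.n)) (B C : Finset (Fin G.m)), Disjoint B C ∧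
    (∃ r, G.IsOutBranching σ B r) ∧ ∃ r, G.IsInBranching σ C r

/-- The encoding of graphs as words over a four-letter alphabet (bits `some (some b)`, comma
`some none`, semicolon `none`): the binary expansion of the number of vertices, and then for every
edge a semicolon, the binary expansion of one end, a comma, and the binary expansion of the other
end (least significant bits first). -/
def encode (G : MGraph) : List (Option (Option Bool)) :=
  G.n.bits.map (fun b => some (some b)) ++ (List.finRange G.m).flatMap fun e =>
    none :: ((G.fst e).val.bits.map (fun b => some (some b)) ++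
      some none :: (G.snd e).val.bits.map fun b => some (some b))

end MGraph

/-- The correctness of the procedure. -/
theorem correct (G : MGraph) (hG : G.Is2T) :
    TwoTree.decG G.n (TwoTree.allE G.fst G.snd) = true ↔ G.HasGoodOrdering := by
  obtain ⟨F₁, F₂, hu, hd, ⟨h1, h1'⟩, ⟨h2, h2'⟩⟩ := hG
  have hcard : ∀ F : Finset (Fin G.m), F.card + 1 = G.n →
      F.card + 1 = Fintype.card (Fin G.n) := fun F h => by rw [Fintype.card_fin]; exact h
  have hsp : TwoTree.Sparse G.fst G.snd :=
    TwoTree.sparse_of_two_trees G.ends_ne hu h1 (hcard _ h1') h2 (hcard _ h2')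
  have hE : G.m + 2 = 2 * G.n := by
    have h3 := Finset.card_union_of_disjoint hd
    rw [hu, Finset.card_univ, Fintype.card_fin] at h3
    omega
  rw [TwoTree.decG_iff G.ends_ne hsp hE]
  constructor
  · rintro (hn | ⟨s, t, hst, o, ho⟩)
    · have hm : G.m = 0 := by omega
      have : Subsingleton (Fin G.n) := by rw [hn]; infer_instance
      have : IsEmpty (Fin G.m) := by rw [hm]; infer_instance
      refine ⟨Equiv.refl _, ∅, ∅, by simp, ⟨⟨0, by omega⟩, fun v => ?_⟩, ⟨⟨0, by omega⟩, fun v => ?_⟩⟩
      · rw [if_pos (Subsingleton.elim _ _)]; simp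
      · rw [if_pos (Subsingleton.elim _ _)]; simp
    · obtain ⟨f, hf, hgood⟩ := ho.exists_good G.ends_ne hsp hst
      obtain ⟨σ, hσ⟩ := TwoTree.exists_perm f hf
      exact ⟨σ, TwoTree.goodF_congr hσ hgood⟩
  · rintro ⟨σ, hσ⟩
    rcases Nat.lt_or_ge G.n 2 with hn | hn
    · left; omega
    · right
      exact TwoTree.exists_owner (α := Fin G.n) (f := σ) G.ends_ne
        (by rw [Fintype.card_fin, Fintype.card_fin]; exact hE)
        (by rw [Fintype.card_fin]; exact hn) σ.injective hσ

/-- There is a polynomial-time algorithm which decides, for every 2T-graph, whether it has a good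
ordering. -/
theorem result : ∃ f : MGraph → Bool,
    Nonempty (Turing.TM2ComputableInPolyTime MGraph.encode Computability.encodeBool f) ∧
    ∀ G : MGraph, G.Is2T → (f G = true ↔ G.HasGoodOrdering) := by
  refine ⟨fun G => TwoTree.decW (PolyTime.blocks G.encode), ?_, ?_⟩
  · exact PolyTime.PolyFn.toTM2 (F := fun w => TwoTree.decW (PolyTime.blocks w))
      (TwoTree.poly_decW.comp (PolyTime.PolyFn.blocks PolyTime.PolyFn.id)) MGraph.encode _
      (fun _ => rfl)
  · intro G hG
    rw [← correct G hG]
    have hn : G.n ≤ G.m + 1 := by
      obtain ⟨F₁, F₂, hu, hd, ⟨_, h1'⟩, ⟨_, h2'⟩⟩ := hG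
      have h3 := Finset.card_union_of_disjoint hd
      rw [hu, Finset.card_univ, Fintype.card_fin] at h3
      omega
    have henc : G.encode = TwoTree.encodeG G.n
        ((List.finRange G.m).map fun e => ((G.fst e).val, (G.snd e).val)) := by
      unfold MGraph.encode TwoTree.encodeG
      rw [List.flatMap_map]
    dsimp only
    rw [henc, TwoTree.decW_encodeG hn]

end Pool.Agent.Results.MP_18867f_lc.GoodOrderingInP
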